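import Pool.Agent.helper62.DP8.Spec

set_option autoImplicit false

namespace Pool.Agent.helper62.DP8

theorem AA1_pick (hPIG : PIG_stmt) (W : Type) (A : Finset W) (hA : 6 ≤ A.card) (p1 p2 p3 p4 p5 : W → Prop)
    (h1 : ∀ x ∈ A, ∀ y ∈ A, p1 x → p1 y → x = y) (h2 : ∀ x ∈ A, ∀ y ∈ A, p2 x → p2 y → x = y)
    (h3 : ∀ x ∈ A, ∀ y ∈ A, p3 x → p3 y → x = y) (h4 : ∀ x ∈ A, ∀ y ∈ A, p4 x → p4 y → x = y)
    (h5 : ∀ x ∈ A, ∀ y ∈ A, p5 x → p5 y → x = y) :
    ∃ x ∈ A, ¬ p1 x ∧ ¬ p2 x ∧ ¬ p3 x ∧ ¬ p4 x ∧ ¬ p5 x := by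
  obtain ⟨x, hx, hP⟩ := hPIG W A [p1, p2, p3, p4, p5] (by simp only [List.length_cons, List.length_nil]; omega) (by
    intro p hp
    simp only [List.mem_cons, List.not_mem_nil, or_false] at hp
    rcases hp with rfl | rfl | rfl | rfl | rfl
    · exact h1
    · exact h2
    · exact h3
    · exact h4
    · exact h5)
  exact ⟨x, hx, hP p1 (by simp), hP p2 (by simp), hP p3 (by simp), hP p4 (by simp), hP p5 (by simp)⟩

theorem AA1_sgn (g : ℕ) (W : Type) (a : ℕ → Finset W) (R : W → W → Prop) (t : ℕ → Bool → W → Prop) (hC : Cyc g W a R t)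
    (i j : ℕ) (h1 : i ≤ j) (h2 : j ≤ i + 2) (x : W) (hx : x ∈ a (i + 1)) : ∃ s, ¬ t j s x := by
  by_cases h : t j true x
  · exact ⟨false, fun h' => hC.sgn i j h1 h2 x hx ⟨h, h'⟩⟩
  · exact ⟨true, h⟩

theorem AA1_base (hPIG : PIG_stmt) (g : ℕ) (W : Type) (a : ℕ → Finset W) (R : W → W → Prop) (t : ℕ → Bool → W → Prop) (hC : Cyc g W a R t)
    (φ : W) (hφ : φ ∈ a 0) : ∃ c : ℕ → W, c 0 = φ ∧ ChA W a R t 3 c := by
  have g5 := hC.g5
  obtain ⟨x, hx, x1, x2, x3, x4, x5⟩ := AA1_pick hPIG W (a 2) (hC.six 2) (R φ) (t 1 true) (t 1 false) (t 2 true) (t 2 false)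
    (fun x hx y hy h h' => hC.mat 0 2 (by omega) (by omega) φ hφ x hx y hy h h')
    (fun x hx y hy h h' => hC.one 1 1 true (by omega) (by omega) x hx y hy h h')
    (fun x hx y hy h h' => hC.one 1 1 false (by omega) (by omega) x hx y hy h h')
    (fun x hx y hy h h' => hC.one 1 2 true (by omega) (by omega) x hx y hy h h')
    (fun x hx y hy h h' => hC.one 1 2 false (by omega) (by omega) x hx y hy h h')
  obtain ⟨s, hs⟩ := AA1_sgn g W a R t hC 1 3 (by omega) (by omega) x hx
  obtain ⟨y, hy, y1, y2, y3, y4, y5⟩ := AA1_pick hPIG W (a 3) (hC.six 3) (R φ) (R x) (t 2 true) (t 2 false) (t 3 s)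
    (fun u hu v hv h h' => hC.mat 0 3 (by omega) (by omega) φ hφ u hu v hv h h')
    (fun u hu v hv h h' => hC.mat 2 3 (by omega) (by omega) x hx u hu v hv h h')
    (fun u hu v hv h h' => hC.one 2 2 true (by omega) (by omega) u hu v hv h h')
    (fun u hu v hv h h' => hC.one 2 2 false (by omega) (by omega) u hu v hv h h')
    (fun u hu v hv h h' => hC.one 2 3 s (by omega) (by omega) u hu v hv h h')
  refine ⟨fun j => if j = 0 then φ else if j = 2 then x else y, by simp, ?_⟩
  constructor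
  · intro j h2 h3
    have : j = 2 ∨ j = 3 := by omega
    rcases this with rfl | rfl
    · simpa using hx
    · simpa using hy
  · intro j h2 h3
    have : j = 2 ∨ j = 3 := by omega
    rcases this with rfl | rfl
    · simpa using x1
    · simpa using y1
  · intro j h2 h3
    have : j = 2 := by omega
    subst this
    simpa using y2
  · intro j h2 h3
    omega
  · intro s'
    cases s'
    · simp only [OfNat.ofNat_ne_zero, if_false, if_true]
      exact ⟨x3, x5, by simpa using y4⟩
    · simp only [OfNat.ofNat_ne_zero, if_false, if_true]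
      exact ⟨x2, x4, by simpa using y3⟩
  · intro j h2 h3
    omega
  · exact ⟨s, by simpa using hs, by simpa using y5⟩

theorem AA1_step (hPIG : PIG_stmt) (g : ℕ) (W : Type) (a : ℕ → Finset W) (R : W → W → Prop) (t : ℕ → Bool → W → Prop) (hC : Cyc g W a R t)
    (φ : W) (hφ : φ ∈ a 0) (m : ℕ) (h3 : 3 ≤ m) (hm : m + 1 ≤ g - 1) (c : ℕ → W) (h0 : c 0 = φ) (hc : ChA W a R t m c) :
    ∃ c : ℕ → W, c 0 = φ ∧ ChA W a R t (m + 1) c := by
  have g5 := hC.g5
  obtain ⟨s, hs1, hs2⟩ := hc.pm
  have hcm : c m ∈ a (m - 1 + 1) := by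
    have := hc.mem m (by omega) (by omega)
    have e : m - 1 + 1 = m := by omega
    rw [e]
    exact this
  obtain ⟨s', hs'⟩ := AA1_sgn g W a R t hC (m - 1) (m + 1) (by omega) (by omega) (c m) hcm
  obtain ⟨x, hx, x1, x2, x3, x4, x5⟩ := AA1_pick hPIG W (a (m + 1)) (hC.six (m + 1)) (R φ) (R (c m)) (R (c (m - 1))) (t m s) (t (m + 1) s')
    (fun u hu v hv h h' => hC.mat 0 (m + 1) (by omega) (by omega) φ hφ u hu v hv h h')
    (fun u hu v hv h h' => hC.mat m (m + 1) (by omega) (by omega) (c m) (hc.mem m (by omega) (by omega)) u hu v hv h h')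
    (fun u hu v hv h h' => hC.mat (m - 1) (m + 1) (by omega) (by omega) (c (m - 1)) (hc.mem (m - 1) (by omega) (by omega)) u hu v hv h h')
    (fun u hu v hv h h' => hC.one m m s (by omega) (by omega) u hu v hv h h')
    (fun u hu v hv h h' => hC.one m (m + 1) s' (by omega) (by omega) u hu v hv h h')
  obtain ⟨c', old, new⟩ : ∃ c' : ℕ → W, (∀ j, j ≤ m → c' j = c j) ∧ c' (m + 1) = x :=
    ⟨fun j => if j = m + 1 then x else c j, by
      intro j hj
      have : j ≠ m + 1 := by omega
      simp [this], by simp⟩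
  refine ⟨c', by rw [old 0 (by omega), h0], ?_⟩
  constructor
  · intro j h2 hj
    rcases Nat.lt_or_ge m j with h | h
    · have : j = m + 1 := by omega
      subst this
      rw [new]
      exact hx
    · rw [old j h]
      exact hc.mem j h2 h
  · intro j h2 hj
    rw [old 0 (by omega), h0]
    rcases Nat.lt_or_ge m j with h | h
    · have : j = m + 1 := by omega
      subst this
      rw [new]
      exact x1
    · rw [old j h, ← h0]
      exact hc.r0 j h2 h
  · intro j h2 hj
    rw [old j (by omega)]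
    rcases Nat.lt_or_ge m (j + 1) with h | h
    · have : j = m := by omega
      subst this
      rw [new]
      exact x2
    · rw [old (j + 1) h]
      exact hc.r1 j h2 h
  · intro j h2 hj
    rw [old j (by omega)]
    rcases Nat.lt_or_ge m (j + 2) with h | h
    · have : m = j + 1 := by omega
      subst this
      rw [new]
      exact x3
    · rw [old (j + 2) h]
      exact hc.r2 j h2 h
  · intro s1
    rw [old 2 (by omega), old 3 (by omega)]
    exact hc.p12 s1
  · intro j h2 hj
    rw [old j (by omega), old (j + 1) (by omega)]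
    rcases Nat.lt_or_ge m (j + 2) with h | h
    · have : m = j + 1 := by omega
      subst this
      rw [new]
      exact ⟨s, hs1, hs2, x4⟩
    · rw [old (j + 2) h]
      exact hc.pn j h2 h
  · rw [new]
    have e : m + 1 - 1 = m := by omega
    rw [e, old m (by omega)]
    exact ⟨s', hs', x5⟩

theorem AA1 (hPIG : PIG_stmt) : AA1_stmt := by
  intro g W a R t hC φ hφ _
  have g5 := hC.g5
  have main : ∀ k, k + 3 ≤ g - 1 → ∃ c : ℕ → W, c 0 = φ ∧ ChA W a R t (k + 3) c := by
    intro k
    induction k with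
    | zero =>
      intro _
      exact AA1_base hPIG g W a R t hC φ hφ
    | succ k ih =>
      intro hk
      obtain ⟨c, h0, hc⟩ := ih (by omega)
      have e : k + 1 + 3 = k + 3 + 1 := by omega
      rw [e]
      exact AA1_step hPIG g W a R t hC φ hφ (k + 3) (by omega) (by omega) c h0 hc
  have e : g - 4 + 3 = g - 1 := by omega
  have := main (g - 4) (by omega)
  rwa [e] at this

end Pool.Agent.helper62.DP8
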